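import Pool.Agent.Lib.MP_61ed4e_co.Main

/-!
# First-player advantage in the monotonic sequence game on the rationals

The statement that for all `a ≥ d ≥ 4` the first player wins the normal-play monotonic sequence
game with parameters `a, d` on the rationals is false: the second player wins for `a = 25`, `d = 11`.

Outline.  Label every chosen number by the pair `(i, j)` of the lengths of a longest increasing and
of a longest decreasing subsequence ending at it.  Nobody may allow a label with `i = 24` or
`j = 10`.  The set of cells of the `23 × 9` board below a label grows as a Young diagram, and the
labels available to the player to move are exactly the cells outside the diagram sharing an edge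
with it; this turns the game into a game on Young diagrams.  The set of the positions of that game
which are lost for the player to move (2565681 of the 28048800 positions) is given as a bit vector,
and its defining property is checked by the kernel of Lean with a bit-parallel algorithm which is
proved correct in `Sound`, `Sound2` and `Kernel`.
-/

set_option autoImplicit false

namespace Pool.Agent.Results.MP_61ed4e_co.SecondPlayerWins

open Pool.Agent.Lib.MP_61ed4e_co

/-- The second player wins the normal-play game with parameters `25, 11`; in particular it is not
true that the first player wins for all `a ≥ d ≥ 4`. -/
theorem result : SecondPlayerWins 25 11 ∧ ¬ FirstPlayerWins 25 11 ∧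
    ¬ ∀ a d : ℕ, 4 ≤ d → d ≤ a → FirstPlayerWins a d := by
  have h1 : SecondPlayerWins 25 11 := secondPlayerWins
  have h2 : ¬ FirstPlayerWins 25 11 := fun h => not_both h (fun q _ => h1 q)
  exact ⟨h1, h2, fun h => h2 (h 25 11 (by norm_num) (by norm_num))⟩

end Pool.Agent.Results.MP_61ed4e_co.SecondPlayerWins
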